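import Pool.Agent.W598.CritMain

open UpperHalfPlane
open Pool.Agent.W598

namespace Pool.Agent.Results.MP_c5bc55_gt.ExponentNotConstant

/-- There is an infinitely generated Fuchsian group of the first kind, acting freely on the
hyperbolic plane, and there are two points of its quasiconformal deformation space with different
critical exponents. -/
theorem result : ∃ Γ₀ : Subgroup (ℍ ≃ₜ ℍ),
    IsFuchsian Γ₀ ∧ IsFirstKind Γ₀ ∧ ¬ Γ₀.FG ∧ (∀ γ ∈ Γ₀, ∀ z : ℍ, γ z = z → γ = 1) ∧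
    ∃ w₁ ∈ Tqc Γ₀, ∃ w₂ ∈ Tqc Γ₀, ∀ o : ℍ,
      critExp (deform Γ₀ w₁) o ≠ critExp (deform Γ₀ w₂) o :=
  main

end Pool.Agent.Results.MP_c5bc55_gt.ExponentNotConstant
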